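import Pool.Agent.Helper20.FS.St3

/-!
# Project SM, module SB: assembly in the completion
-/

set_option autoImplicit false

open Topology Filter

namespace Pool.Agent.Helper62.SL

open Pool.Agent.Helper20.FA
open Pool.Agent.Helper20.FR
open Pool.Agent.Helper20.FS

section

variable {A : Type} [CommRing A] [Algebra ℂ A]

private lemma hb (r : Seminorm ℂ A) (v : A) (M : ℝ) (hM : 0 ≤ M)
    (h : ∀ l : DA r, ‖l.at v‖ ≤ M * ‖l‖) : r v ≤ M := by
  obtain ⟨g, hg1, hg⟩ := exists_dual_vector'' ℂ (SA.of r v)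
  have h1 := h g
  have h2 : DA.at g v = ((r v : ℝ) : ℂ) := hg
  rw [h2, Complex.norm_real, Real.norm_eq_abs, abs_of_nonneg (apply_nonneg r v)] at h1
  have h3 : M * ‖g‖ ≤ M * 1 := mul_le_mul_of_nonneg_left hg1 hM
  linarith

private lemma hchi (r : Seminorm ℂ A) (χ : A →ₗ[ℂ] ℂ) (h : ∀ a, ‖χ a‖ ≤ r a) :
    ∃ l : DA r, ‖l‖ ≤ 1 ∧ ∀ a, l.at a = χ a := by
  let f : SA r →ₗ[ℂ] ℂ :=
    { toFun := fun a => χ (show A from a)
      map_add' := fun a b => χ.map_add (show A from a) (show A from b)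
      map_smul' := fun c a => χ.map_smul c (show A from a) }
  have hf : ∀ a : SA r, ‖f a‖ ≤ 1 * ‖a‖ := by
    intro a
    rw [one_mul]
    exact h (show A from a)
  exact ⟨LinearMap.mkContinuous f 1 hf, LinearMap.mkContinuous_norm_le f zero_le_one hf,
    fun a => rfl⟩

end

/-- SB. -/
theorem hSB (hUL : StUL) (hDI : StDI) : StSB := by
  intro A _ _ r q hm x hx χ hχ F C hC hFb hF1 hFc hF0
  obtain ⟨G, hG⟩ := hUL (DA r) F (fun l => C * ‖l‖) hFb
  have hcl : ∀ (v : DA r) (K : Set ℂ), IsClosed K → (∀ n, F n v ∈ K) → G v ∈ K := by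
    intro v K hK h
    by_contra hc
    have h1 := hG v Kᶜ (hK.isOpen_compl.mem_nhds hc)
    obtain ⟨n, hn⟩ := h1.exists
    exact hn (h n)
  have hGb : ∀ l : DA r, ‖G l‖ ≤ C * ‖l‖ := by
    intro l
    exact hcl l {z | ‖z‖ ≤ C * ‖l‖} (isClosed_le continuous_norm continuous_const)
      (fun n => hFb n l)
  have hG1 : ∀ l : DA r, (∀ a, l.at a = χ a) → G l = 1 := by
    intro l hl
    exact hcl l {1} isClosed_singleton (fun n => hF1 n l hl)
  have hGc : ∀ (c : A) (l : DA r), ‖G (SA.B r hm (SA.of r c) l)‖ ≤ C * q c * ‖l‖ := by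
    intro c l
    exact hcl (SA.B r hm (SA.of r c) l) {z | ‖z‖ ≤ C * q c * ‖l‖}
      (isClosed_le continuous_norm continuous_const) (fun n => hFc n c l)
  have hG0 : ∀ l : ℕ → DA r, (∀ j, ‖l j‖ ≤ 1) → (∀ a, Tendsto (fun j => (l j).at a) atTop (𝓝 0)) →
      Tendsto (fun j => G (l j)) atTop (𝓝 0) := by
    intro l hl1 hl0
    by_contra hcon
    rw [Metric.tendsto_atTop] at hcon
    push Not at hcon
    obtain ⟨ε, hε, hj⟩ := hcon
    choose js hjs1 hjs2 using hj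
    have hfr : ∀ i, ∃ᶠ n in atTop, ε / 2 < ‖F n (l (js i))‖ := by
      intro i
      have hop : IsOpen {z : ℂ | ε / 2 < ‖z‖} := isOpen_lt continuous_const continuous_norm
      have hme : G (l (js i)) ∈ {z : ℂ | ε / 2 < ‖z‖} := by
        have h1 := hjs2 i
        rw [dist_zero_right] at h1
        show ε / 2 < ‖G (l (js i))‖
        linarith
      exact hG (l (js i)) _ (hop.mem_nhds hme)
    obtain ⟨φ, hφ, hφ2⟩ := extraction_forall_of_frequently hfr
    set l' : ℕ → DA r := Function.extend φ (fun i => l (js i)) (fun _ => 0) with hl'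
    have e1 : ∀ i, l' (φ i) = l (js i) := fun i => hφ.injective.extend_apply _ _ i
    have e2 : ∀ n, (¬ ∃ i, φ i = n) → l' n = 0 := fun n hn => Function.extend_apply' _ _ n hn
    have hb1 : ∀ n, ‖l' n‖ ≤ 1 := by
      intro n
      by_cases h : ∃ i, φ i = n
      · obtain ⟨i, rfl⟩ := h
        rw [e1]
        exact hl1 _
      · rw [e2 n h, norm_zero]
        exact zero_le_one
    have hb2 : ∀ a, Tendsto (fun n => (l' n).at a) atTop (𝓝 0) := by
      intro a
      rw [Metric.tendsto_atTop]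
      intro δ hδ
      obtain ⟨N0, hN0⟩ := Metric.tendsto_atTop.1 (hl0 a) δ hδ
      refine ⟨φ N0, fun n hn => ?_⟩
      by_cases h : ∃ i, φ i = n
      · obtain ⟨i, rfl⟩ := h
        rw [e1]
        have h1 : N0 ≤ i := hφ.le_iff_le.1 hn
        exact hN0 _ (h1.trans (hjs1 i))
      · rw [e2 n h]
        have : (0 : DA r).at a = 0 := rfl
        rw [this, dist_self]
        exact hδ
    have h3 := (hF0 l' hb1 hb2).comp hφ.tendsto_atTop
    obtain ⟨N, hN⟩ := Metric.tendsto_atTop.1 h3 (ε / 2) (by linarith)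
    have h4 := hN N le_rfl
    simp only [Function.comp] at h4
    rw [e1, dist_zero_right] at h4
    exact absurd (hφ2 N) (not_lt.2 h4.le)
  have hden : ∀ z : SA r, ∀ ε > 0, ∃ k, ‖z - (SA.of r (x k))‖ < ε := fun z ε hε => hx z ε hε
  have hz := hDI (SA r) (fun k => SA.of r (x k)) hden G C hGb
    (fun l h1 h2 => hG0 l h1 (fun a => h2 (SA.of r a)))
  have hz2 : ∀ k : ℕ, ∃ z : A, ∀ l : DA r, ‖G l - l.at z‖ ≤ (1 / 2 : ℝ) ^ (k + 1) * ‖l‖ := by
    intro k
    obtain ⟨z, hz⟩ := hz ((1 / 2 : ℝ) ^ (k + 1)) (by positivity)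
    exact ⟨z, hz⟩
  choose α hα using hz2
  refine ⟨α, ⟨?_, ?_⟩, ?_⟩
  · intro k
    apply hb r _ _ (by positivity)
    intro l
    have hl := norm_nonneg l
    have hp : (0 : ℝ) ≤ (1 / 2 : ℝ) ^ k := by positivity
    have e : l.at (α (k + 1) - α k) = (G l - l.at (α k)) - (G l - l.at (α (k + 1))) := by
      have : l.at (α (k + 1) - α k) = l.at (α (k + 1)) - l.at (α k) :=
        map_sub l (SA.of r (α (k + 1))) (SA.of r (α k))
      rw [this]
      ring
    rw [e]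
    calc ‖(G l - l.at (α k)) - (G l - l.at (α (k + 1)))‖
        ≤ ‖G l - l.at (α k)‖ + ‖G l - l.at (α (k + 1))‖ := norm_sub_le _ _
      _ ≤ (1 / 2 : ℝ) ^ (k + 1) * ‖l‖ + (1 / 2 : ℝ) ^ (k + 1 + 1) * ‖l‖ :=
          add_le_add (hα k l) (hα (k + 1) l)
      _ = (1 / 2 : ℝ) ^ k * (3 / 4 * ‖l‖) := by ring
      _ ≤ (1 / 2 : ℝ) ^ k * ‖l‖ := mul_le_mul_of_nonneg_left (by linarith) hp
  · intro k c
    have hq := apply_nonneg q c
    have hr := apply_nonneg r c
    apply hb r _ _ (by positivity)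
    intro l
    have hBn : ‖SA.B r hm (SA.of r c) l‖ ≤ r c * ‖l‖ := by
      refine ContinuousLinearMap.opNorm_le_bound _ (by positivity) fun a => ?_
      have h1 : (SA.B r hm (SA.of r c) l) a = l.at ((show A from a) * c) := SA.B_at r hm c l a
      rw [h1]
      have h2 := l.bd ((show A from a) * c)
      have h3 := hm (show A from a) c
      have h4 : ‖a‖ = r (show A from a) := rfl
      rw [h4]
      calc ‖l.at ((show A from a) * c)‖ ≤ ‖l‖ * r ((show A from a) * c) := h2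
        _ ≤ ‖l‖ * (r (show A from a) * r c) := mul_le_mul_of_nonneg_left h3 (norm_nonneg l)
        _ = _ := by ring
    have e : l.at (α k * c) = G (SA.B r hm (SA.of r c) l) -
        (G (SA.B r hm (SA.of r c) l) - (SA.B r hm (SA.of r c) l).at (α k)) := by
      rw [SA.B_at]
      ring
    rw [e]
    have hl := norm_nonneg l
    have hp : (0 : ℝ) ≤ (1 / 2 : ℝ) ^ k := by positivity
    calc ‖G (SA.B r hm (SA.of r c) l) -
        (G (SA.B r hm (SA.of r c) l) - (SA.B r hm (SA.of r c) l).at (α k))‖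
        ≤ ‖G (SA.B r hm (SA.of r c) l)‖ +
          ‖G (SA.B r hm (SA.of r c) l) - (SA.B r hm (SA.of r c) l).at (α k)‖ := norm_sub_le _ _
      _ ≤ C * q c * ‖l‖ + (1 / 2 : ℝ) ^ (k + 1) * ‖SA.B r hm (SA.of r c) l‖ :=
          add_le_add (hGc c l) (hα k _)
      _ ≤ C * q c * ‖l‖ + (1 / 2 : ℝ) ^ (k + 1) * (r c * ‖l‖) := by gcongr
      _ = C * q c * ‖l‖ + (1 / 2 : ℝ) ^ k * (1 / 2 * (r c * ‖l‖)) := by ring
      _ ≤ C * q c * ‖l‖ + (1 / 2 : ℝ) ^ k * (r c * ‖l‖) := by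
          have h5 : (0 : ℝ) ≤ r c * ‖l‖ := mul_nonneg hr hl
          have h6 : (1 / 2 : ℝ) ^ k * (1 / 2 * (r c * ‖l‖)) ≤ (1 / 2 : ℝ) ^ k * (r c * ‖l‖) :=
            mul_le_mul_of_nonneg_left (by linarith) hp
          linarith
      _ = _ := by ring
  · intro k
    obtain ⟨l, hl1, hl⟩ := hchi r χ hχ
    have h1 := hα k l
    rw [hG1 l hl, hl] at h1
    have hp : (0 : ℝ) ≤ (1 / 2 : ℝ) ^ k := by positivity
    rw [norm_sub_rev]
    calc ‖1 - χ (α k)‖ ≤ (1 / 2 : ℝ) ^ (k + 1) * ‖l‖ := h1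
      _ = (1 / 2 : ℝ) ^ k * (1 / 2 * ‖l‖) := by ring
      _ ≤ (1 / 2 : ℝ) ^ k * 1 := mul_le_mul_of_nonneg_left (by linarith) hp
      _ = (1 / 2 : ℝ) ^ k := mul_one _

end Pool.Agent.Helper62.SL
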